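import Mathlib

set_option autoImplicit false
open Finset
open scoped Pointwise

/-! # Lower bound for the number of values of `a i + a j + (j - i)`: combinatorial part -/

namespace Pool.Agent.H66.Sds

/-- the set of values -/
noncomputable def SV (n : ℕ) (a : ℕ → ℤ) : Finset ℤ :=
  ((range n ×ˢ range n).filter fun p => p.1 < p.2).image fun p => a p.1 + a p.2 + ((p.2 : ℤ) - p.1)

lemma mem_SV {n : ℕ} {a : ℕ → ℤ} {v : ℤ} : v ∈ SV n a ↔
    ∃ i j : ℕ, i < j ∧ j < n ∧ v = a i + a j + ((j : ℤ) - i) := by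
  unfold SV
  simp only [mem_image, mem_filter, mem_product, mem_range, Prod.exists]
  constructor
  · rintro ⟨i, j, ⟨⟨_, h2⟩, h3⟩, rfl⟩
    exact ⟨i, j, h3, h2, rfl⟩
  · rintro ⟨i, j, h1, h2, rfl⟩
    exact ⟨i, j, ⟨⟨h1.trans h2, h2⟩, h1⟩, rfl⟩

/-- block of indices -/
def Bk (B k : ℕ) : Finset ℕ := Ico (k * B) (k * B + B)

/-- differences on a block -/
noncomputable def Xs (B : ℕ) (a : ℕ → ℤ) (k : ℕ) : Finset ℤ := (Bk B k).image fun i => a i - i

/-- sums on a block -/
noncomputable def Ys (B : ℕ) (a : ℕ → ℤ) (k : ℕ) : Finset ℤ := (Bk B k).image fun i => a i + i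

/-- values in the window number `d` -/
noncomputable def Wn (n B : ℕ) (a : ℕ → ℤ) (d : ℕ) : Finset ℤ :=
  (SV n a).filter fun v => ((d : ℤ) - 1) * B < v ∧ v < ((d : ℤ) + 3) * B

variable {n B N : ℕ} {a : ℕ → ℤ}

lemma mem_Bk {k i : ℕ} : i ∈ Bk B k ↔ k * B ≤ i ∧ i < k * B + B := by
  unfold Bk
  rw [mem_Ico]

/-- the window contains the sums -/
lemma add_subset (hn : N * B ≤ n) (ha : ∀ i, i < n → 0 ≤ a i ∧ a i < B) {j k : ℕ} (hjk : j < k)
    (hk : k < N) : Xs B a j + Ys B a k ⊆ Wn n B a (k - j) := by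
  intro v hv
  rw [mem_add] at hv
  obtain ⟨x, hx, y, hy, rfl⟩ := hv
  unfold Xs at hx
  unfold Ys at hy
  rw [mem_image] at hx hy
  obtain ⟨i, hi, rfl⟩ := hx
  obtain ⟨i', hi', rfl⟩ := hy
  rw [mem_Bk] at hi hi'
  have h1 : (j + 1) * B ≤ k * B := Nat.mul_le_mul_right _ hjk
  have h2 : (k + 1) * B ≤ N * B := Nat.mul_le_mul_right _ hk
  rw [add_mul, one_mul] at h1 h2
  have hi'n : i' < n := by omega
  have hii : i < i' := by omega
  obtain ⟨b1, b2⟩ := ha i (by omega)
  obtain ⟨b3, b4⟩ := ha i' hi'n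
  unfold Wn
  rw [mem_filter, mem_SV]
  refine ⟨⟨i, i', hii, hi'n, by ring⟩, ?_⟩
  have e1 : ((k - j : ℕ) : ℤ) = (k : ℤ) - j := by push_cast [Nat.cast_sub hjk.le]; ring
  rw [e1]
  have c1 : (j : ℤ) * B ≤ i := by exact_mod_cast hi.1
  have c2 : (i : ℤ) < j * B + B := by exact_mod_cast hi.2
  have c3 : (k : ℤ) * B ≤ i' := by exact_mod_cast hi'.1
  have c4 : (i' : ℤ) < k * B + B := by exact_mod_cast hi'.2
  constructor
  · have : ((k : ℤ) - j - 1) * B = k * B - j * B - B := by ring
    rw [this]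
    linarith
  · have : ((k : ℤ) - j + 3) * B = k * B - j * B + 3 * B := by ring
    rw [this]
    linarith

/-- the two coordinates determine the index -/
lemma card_mul_ge (a : ℕ → ℤ) (B k : ℕ) : B ≤ (Xs B a k).card * (Ys B a k).card := by
  have h : (Bk B k).card ≤ (Xs B a k ×ˢ Ys B a k).card := by
    refine card_le_card_of_injOn (fun i => (a i - i, a i + i)) ?_ ?_
    · intro i hi
      rw [mem_coe, mem_product]
      exact ⟨mem_image_of_mem _ hi, mem_image_of_mem _ hi⟩
    · intro i _ i' _ h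
      rw [Prod.ext_iff] at h
      simp only at h
      omega
  rw [card_product] at h
  have h2 : (Bk B k).card = B := by unfold Bk; rw [Nat.card_Ico]; omega
  omega

lemma card_X_le (a : ℕ → ℤ) (B k : ℕ) : (Xs B a k).card ≤ B := by
  refine card_image_le.trans ?_
  unfold Bk
  rw [Nat.card_Ico]
  omega

lemma card_diff_ge (a : ℕ → ℤ) (B k : ℕ) : B ≤ (Ys B a k - Xs B a k).card := by
  have h : (Bk B k).card ≤ (Ys B a k - Xs B a k).card := by
    refine card_le_card_of_injOn (fun i => (a i + i) - (a i - i)) ?_ ?_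
    · intro i hi
      rw [mem_coe]
      exact sub_mem_sub (mem_image_of_mem _ hi) (mem_image_of_mem _ hi)
    · intro i _ i' _ h
      simp only at h
      omega
  have h2 : (Bk B k).card = B := by unfold Bk; rw [Nat.card_Ico]; omega
  omega

/-- **the main inequality** -/
theorem three (hn : N * B ≤ n) (ha : ∀ i, i < n → 0 ≤ a i ∧ a i < B) {j k l : ℕ} (hjk : j < k)
    (hkl : k < l) (hl : l < N) : B * ((Xs B a j).card * (Ys B a l).card) ≤
      (Wn n B a (k - j)).card * ((Wn n B a (l - j)).card * (Wn n B a (l - k)).card) := by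
  have h1 := Finset.ruzsa_triangle_inequality_sub_add_add (Ys B a k) (Xs B a j) (Xs B a k)
  have h2 := Finset.ruzsa_triangle_inequality_add_add_add (Xs B a k) (Ys B a l) (Xs B a j)
  have h3 := card_diff_ge a B k
  have e1 := card_le_card (add_subset hn ha hjk (hkl.trans hl))
  have e2 := card_le_card (add_subset hn ha (hjk.trans hkl) hl)
  have e3 := card_le_card (add_subset hn ha hkl hl)
  rw [add_comm (Ys B a l) (Xs B a j)] at h2
  rw [add_comm (Ys B a k) (Xs B a j)] at h1
  calc B * ((Xs B a j).card * (Ys B a l).card)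
      ≤ (Ys B a k - Xs B a k).card * ((Xs B a j).card * (Ys B a l).card) :=
        Nat.mul_le_mul_right _ h3
    _ = ((Ys B a k - Xs B a k).card * (Xs B a j).card) * (Ys B a l).card := by ring
    _ ≤ ((Xs B a j + Ys B a k).card * (Xs B a k + Xs B a j).card) * (Ys B a l).card :=
        Nat.mul_le_mul_right _ h1
    _ = (Xs B a j + Ys B a k).card * ((Xs B a k + Xs B a j).card * (Ys B a l).card) := by ring
    _ ≤ (Xs B a j + Ys B a k).card * ((Xs B a k + Ys B a l).card * (Xs B a j + Ys B a l).card) :=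
        Nat.mul_le_mul_left _ h2
    _ ≤ (Wn n B a (k - j)).card * ((Wn n B a (l - k)).card * (Wn n B a (l - j)).card) :=
        Nat.mul_le_mul e1 (Nat.mul_le_mul e3 e2)
    _ = _ := by ring

end Pool.Agent.H66.Sds
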