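import Mathlib
import Pool.Agent.H66.Sds.Low

set_option autoImplicit false
open Finset

/-! # Lower bound: pigeonhole and summation over the windows -/

namespace Pool.Agent.H66.Sds

variable {n B N : ℕ} {a : ℕ → ℤ}

/-- for every distance there is a pair of blocks with many differences and many sums -/
theorem exists_pair {T D : ℕ} (hB : 1 ≤ B) {u : ℝ} (hu0 : 0 < u) (hu : u ^ T = B)
    (hTD : T * D < N) (hT : 0 < T) : ∃ j, j + D < N ∧
      (B : ℝ) ≤ ((Xs B a j).card * (Ys B a (j + D)).card) * u := by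
  by_contra hcon
  push Not at hcon
  have hBR : (1 : ℝ) ≤ B := by exact_mod_cast hB
  have key : ∀ t : ℕ, t ≤ T → u ^ t ≤ ((Xs B a (t * D)).card : ℝ) := by
    intro t
    induction t with
    | zero =>
      intro _
      have h := card_mul_ge a B (0 * D)
      have : 1 ≤ (Xs B a (0 * D)).card := by
        rcases Nat.eq_zero_or_pos (Xs B a (0 * D)).card with h0 | h0
        · rw [h0, zero_mul] at h; omega
        · exact h0
      rw [pow_zero]
      exact_mod_cast this
    | succ t ih =>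
      intro ht
      have h1 := ih (by omega)
      have h2 := hcon (t * D) (by
        have : (t + 1) * D ≤ T * D := Nat.mul_le_mul_right _ ht
        rw [add_mul, one_mul] at this
        omega)
      rw [show t * D + D = (t + 1) * D by ring] at h2
      have h3 : (B : ℝ) ≤ (Xs B a ((t + 1) * D)).card * (Ys B a ((t + 1) * D)).card := by
        exact_mod_cast card_mul_ge a B ((t + 1) * D)
      have h4 : ((Xs B a (t * D)).card : ℝ) * u < (Xs B a ((t + 1) * D)).card := by
        have h5 : (((Xs B a (t * D)).card : ℝ) * u) * (Ys B a ((t + 1) * D)).card <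
            (Xs B a ((t + 1) * D)).card * (Ys B a ((t + 1) * D)).card := by
          calc (((Xs B a (t * D)).card : ℝ) * u) * (Ys B a ((t + 1) * D)).card
              = ((Xs B a (t * D)).card * (Ys B a ((t + 1) * D)).card) * u := by ring
            _ < B := h2
            _ ≤ _ := h3
        exact lt_of_mul_lt_mul_right h5 (Nat.cast_nonneg _)
      calc u ^ (t + 1) = u ^ t * u := pow_succ _ _
        _ ≤ (Xs B a (t * D)).card * u := mul_le_mul_of_nonneg_right h1 hu0.le
        _ ≤ _ := h4.le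
  -- strict at the last step
  obtain ⟨T', rfl⟩ : ∃ T', T = T' + 1 := ⟨T - 1, by omega⟩
  have h1 := key T' (by omega)
  have h2 := hcon (T' * D) (by rw [add_mul, one_mul] at hTD; omega)
  rw [show T' * D + D = (T' + 1) * D by ring] at h2
  have h3 : (B : ℝ) ≤ (Xs B a ((T' + 1) * D)).card * (Ys B a ((T' + 1) * D)).card := by
    exact_mod_cast card_mul_ge a B ((T' + 1) * D)
  have h4 : ((Xs B a (T' * D)).card : ℝ) * u < (Xs B a ((T' + 1) * D)).card := by
    have h5 : (((Xs B a (T' * D)).card : ℝ) * u) * (Ys B a ((T' + 1) * D)).card <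
        (Xs B a ((T' + 1) * D)).card * (Ys B a ((T' + 1) * D)).card := by
      calc (((Xs B a (T' * D)).card : ℝ) * u) * (Ys B a ((T' + 1) * D)).card
          = ((Xs B a (T' * D)).card * (Ys B a ((T' + 1) * D)).card) * u := by ring
        _ < B := h2
        _ ≤ _ := h3
    exact lt_of_mul_lt_mul_right h5 (Nat.cast_nonneg _)
  have h6 : u ^ (T' + 1) ≤ (Xs B a (T' * D)).card * u := by
    rw [pow_succ]
    exact mul_le_mul_of_nonneg_right h1 hu0.le
  have h7 : ((Xs B a ((T' + 1) * D)).card : ℝ) ≤ B := by exact_mod_cast card_X_le a B _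
  rw [hu] at h6
  linarith

/-- number of values in the window -/
noncomputable def sW (n B : ℕ) (a : ℕ → ℤ) (d : ℕ) : ℝ := ((Wn n B a d).card : ℝ)

lemma sW_nonneg (d : ℕ) : 0 ≤ sW n B a d := Nat.cast_nonneg _

/-- one of three windows is rich -/
theorem rich (hn : N * B ≤ n) (ha : ∀ i, i < n → 0 ≤ a i ∧ a i < B) (hB : 1 ≤ B) {T D d : ℕ}
    {u τ : ℝ} (hu0 : 0 < u) (hu : u ^ T = B) (hT : 0 < T) (hTD : T * D < N) (hd : 1 ≤ d)
    (hdD : d < D) (hτ : 0 ≤ τ) (hτ3 : τ ^ 3 * u ≤ (B : ℝ) ^ 2) :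
    τ ≤ sW n B a d + sW n B a (D - d) + sW n B a D := by
  obtain ⟨j, hj, h1⟩ := exists_pair (a := a) hB hu0 hu hTD hT
  have h2 := three hn ha (j := j) (k := j + d) (l := j + D) (by omega) (by omega) hj
  rw [show j + d - j = d by omega, show j + D - j = D by omega,
    show j + D - (j + d) = D - d by omega] at h2
  have h3 : (B : ℝ) * ((Xs B a j).card * (Ys B a (j + D)).card) ≤
      sW n B a d * (sW n B a D * sW n B a (D - d)) := by
    unfold sW
    exact_mod_cast h2
  have h4 : τ ^ 3 ≤ sW n B a d * (sW n B a D * sW n B a (D - d)) := by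
    have h5 : τ ^ 3 * u ≤ (sW n B a d * (sW n B a D * sW n B a (D - d))) * u := by
      calc τ ^ 3 * u ≤ (B : ℝ) ^ 2 := hτ3
        _ = B * B := by ring
        _ ≤ B * (((Xs B a j).card * (Ys B a (j + D)).card) * u) :=
            mul_le_mul_of_nonneg_left h1 (Nat.cast_nonneg _)
        _ = (B * ((Xs B a j).card * (Ys B a (j + D)).card)) * u := by ring
        _ ≤ _ := mul_le_mul_of_nonneg_right h3 hu0.le
    exact le_of_mul_le_mul_right h5 hu0
  have p1 := sW_nonneg (n := n) (B := B) (a := a) d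
  have p2 := sW_nonneg (n := n) (B := B) (a := a) D
  have p3 := sW_nonneg (n := n) (B := B) (a := a) (D - d)
  by_contra hcon
  push Not at hcon
  have q1 : sW n B a d < τ := by linarith
  have q2 : sW n B a D < τ := by linarith
  have q3 : sW n B a (D - d) < τ := by linarith
  have hτ0 : 0 < τ := by linarith
  have : sW n B a d * (sW n B a D * sW n B a (D - d)) < τ * (τ * τ) := by
    have e1 : sW n B a D * sW n B a (D - d) ≤ τ * τ := mul_le_mul q2.le q3.le p3 hτ
    calc sW n B a d * (sW n B a D * sW n B a (D - d)) ≤ sW n B a d * (τ * τ) :=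
          mul_le_mul_of_nonneg_left e1 p1
      _ < τ * (τ * τ) := mul_lt_mul_of_pos_right q1 (by positivity)
  have e : τ ^ 3 = τ * (τ * τ) := by ring
  linarith

/-- summation -/
theorem sum_ge {s : ℕ → ℝ} (hs : ∀ d, 0 ≤ s d) {K : ℕ} {τ : ℝ} (hτ : 0 ≤ τ)
    (h : ∀ D d, 1 ≤ d → d < D → D ≤ K → τ ≤ s d + s (D - d) + s D) :
    τ * ((K : ℝ) - 1) ≤ 6 * ∑ d ∈ Ico 1 (K + 1), s d := by
  set z0 := ∑ d ∈ Ico 1 (K + 1), s d with hz
  have hz0 : 0 ≤ z0 := sum_nonneg fun d _ => hs d
  rcases Nat.lt_or_ge K 2 with hK | hK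
  · have : (K : ℝ) ≤ 1 := by exact_mod_cast (by omega : K ≤ 1)
    nlinarith
  -- for fixed `D`
  have h1 : ∀ D ∈ Ico 1 (K + 1), τ * ((D : ℝ) - 1) ≤ 2 * z0 + K * s D := by
    intro D hD
    rw [mem_Ico] at hD
    have h2 : ∑ d ∈ Ico 1 D, τ ≤ ∑ d ∈ Ico 1 D, (s d + s (D - d) + s D) := by
      refine sum_le_sum fun d hd => ?_
      rw [mem_Ico] at hd
      exact h D d hd.1 hd.2 (by omega)
    rw [sum_add_distrib, sum_add_distrib, sum_const, sum_const, Nat.card_Ico, nsmul_eq_mul,
      nsmul_eq_mul] at h2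
    have h3 : ∑ d ∈ Ico 1 D, s (D - d) = ∑ d ∈ Ico 1 D, s d := by
      refine sum_bij' (fun d _ => D - d) (fun d _ => D - d) ?_ ?_ ?_ ?_ ?_
      · intro d hd; rw [mem_Ico] at hd ⊢; omega
      · intro d hd; rw [mem_Ico] at hd ⊢; omega
      · intro d hd; rw [mem_Ico] at hd; show D - (D - d) = d; omega
      · intro d hd; rw [mem_Ico] at hd; show D - (D - d) = d; omega
      · intro d hd; rfl
    rw [h3] at h2
    have h4 : ∑ d ∈ Ico 1 D, s d ≤ z0 := by
      refine sum_le_sum_of_subset_of_nonneg ?_ fun d _ _ => hs d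
      intro d hd
      rw [mem_Ico] at hd ⊢
      omega
    have h5 : ((D - 1 : ℕ) : ℝ) = (D : ℝ) - 1 := by push_cast [Nat.cast_sub hD.1]; ring
    rw [h5] at h2
    have h6 : ((D : ℝ) - 1) * s D ≤ K * s D := by
      refine mul_le_mul_of_nonneg_right ?_ (hs D)
      have : (D : ℝ) ≤ K := by exact_mod_cast (by omega : D ≤ K)
      linarith
    linarith
  have h2 := sum_le_sum h1
  rw [sum_add_distrib, sum_const, ← mul_sum, ← mul_sum, Nat.card_Ico, nsmul_eq_mul] at h2
  have h3 : ∑ D ∈ Ico 1 (K + 1), ((D : ℝ) - 1) = (K : ℝ) * (K - 1) / 2 := by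
    clear h1 h2 hz0 hK h hz
    clear z0
    induction K with
    | zero => simp
    | succ K ih =>
      rw [sum_Ico_succ_top (by omega), ih]
      push_cast
      ring
  rw [h3] at h2
  have hKR : (0 : ℝ) < K := by exact_mod_cast (by omega : 0 < K)
  have e1 : ((K + 1 - 1 : ℕ) : ℝ) = K := by rw [Nat.add_sub_cancel]
  rw [e1] at h2
  have h5 : (τ * ((K : ℝ) - 1)) * K ≤ (6 * z0) * K := by nlinarith
  exact le_of_mul_le_mul_right h5 hKR

/-- every value is in at most four windows -/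
theorem sum_windows (hB : 1 ≤ B) (K : ℕ) :
    ∑ d ∈ Ico 1 (K + 1), sW n B a d ≤ 4 * ((SV n a).card : ℝ) := by
  have h1 : ∑ d ∈ Ico 1 (K + 1), (Wn n B a d).card ≤ 4 * (SV n a).card := by
    unfold Wn
    simp only [card_filter]
    rw [sum_comm]
    have h2 : ∀ v ∈ SV n a, (∑ d ∈ Ico 1 (K + 1),
        if ((d : ℤ) - 1) * B < v ∧ v < ((d : ℤ) + 3) * B then 1 else 0) ≤ 4 := by
      intro v _
      rw [← card_filter]
      have hBZ : (0 : ℤ) < B := by exact_mod_cast hB
      have hsub : ((Ico 1 (K + 1)).filter fun d : ℕ => ((d : ℤ) - 1) * B < v ∧ v < ((d : ℤ) + 3) * B) ⊆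
          (Icc (v / B - 2).toNat (v / B + 1).toNat) := by
        intro d hd
        rw [mem_filter, mem_Ico] at hd
        obtain ⟨⟨d1, _⟩, d2, d3⟩ := hd
        have e1 : (d : ℤ) - 1 ≤ v / B := by
          rw [Int.le_ediv_iff_mul_le hBZ]
          exact d2.le
        have e2 : v / B < (d : ℤ) + 3 := by
          rw [Int.ediv_lt_iff_lt_mul hBZ]
          exact d3
        rw [mem_Icc]
        omega
      refine (card_le_card hsub).trans ?_
      rw [Nat.card_Icc]
      omega
    calc ∑ v ∈ SV n a, _ ≤ ∑ v ∈ SV n a, 4 := sum_le_sum h2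
      _ = 4 * (SV n a).card := by rw [sum_const, smul_eq_mul, mul_comm]
  unfold sW
  exact_mod_cast h1

/-- **The finite lower bound.** -/
theorem low_finite (hn : N * B ≤ n) (ha : ∀ i, i < n → 0 ≤ a i ∧ a i < B) (hB : 1 ≤ B) {T K : ℕ}
    {u τ : ℝ} (hu0 : 0 < u) (hu : u ^ T = B) (hT : 0 < T) (hTK : T * K < N) (hτ : 0 ≤ τ)
    (hτ3 : τ ^ 3 * u ≤ (B : ℝ) ^ 2) :
    τ * ((K : ℝ) - 1) ≤ 24 * ((SV n a).card : ℝ) := by
  have h1 := sum_ge (s := sW n B a) sW_nonneg (K := K) hτ fun D d h1 h2 h3 =>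
    rich hn ha hB hu0 hu hT (lt_of_le_of_lt (Nat.mul_le_mul_left _ h3) hTK) h1 h2 hτ hτ3
  have h2 := sum_windows (n := n) (a := a) hB K
  linarith

end Pool.Agent.H66.Sds
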