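import Mathlib
import Pool.Agent.H66.Sds.Low2

set_option autoImplicit false
open Finset Filter

/-! # Lower bound: asymptotic form -/

namespace Pool.Agent.H66.Sds

/-- the set of values of a finite sequence -/
def VS {n : ℕ} (a : Fin n → ℕ) : Set ℤ :=
  {v : ℤ | ∃ i j : Fin n, i < j ∧ v = a i + a j + ((j : ℤ) - i)}

/-- extension by zero -/
def ext {n : ℕ} (a : Fin n → ℕ) (i : ℕ) : ℤ := if h : i < n then (a ⟨i, h⟩ : ℤ) else 0

lemma VS_eq {n : ℕ} (a : Fin n → ℕ) : VS a = (SV n (ext a) : Set ℤ) := by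
  ext v
  rw [mem_coe, mem_SV]
  unfold VS
  simp only [Set.mem_setOf_eq]
  constructor
  · rintro ⟨i, j, hij, rfl⟩
    refine ⟨i, j, hij, j.2, ?_⟩
    unfold ext
    rw [dif_pos i.2, dif_pos j.2]
  · rintro ⟨i, j, hij, hj, rfl⟩
    refine ⟨⟨i, hij.trans hj⟩, ⟨j, hj⟩, hij, ?_⟩
    unfold ext
    rw [dif_pos hj, dif_pos (hij.trans hj)]

/-- the property of the problem -/
def PP (c : ℝ) : Prop := ∃ δ : ℝ, 0 < δ ∧ ∃ n0 : ℕ, ∀ n : ℕ, n0 ≤ n → ∀ a : Fin n → ℕ,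
  (∀ i, (a i : ℝ) ≤ (n : ℝ) ^ c) → δ * (n : ℝ) ^ c ≤ ((VS a).ncard : ℝ)

theorem PP_of_lt {c : ℝ} (hc0 : 0 < c) (hc : c < 3 / 4) : PP c := by
  -- the number of steps of the pigeonhole
  obtain ⟨T, hT⟩ : ∃ T : ℕ, c * (4 / 3 + 1 / (3 * ((T : ℝ) + 1))) ≤ 1 := by
    have h1 : 0 < 1 - c * (4 / 3) := by linarith
    obtain ⟨T, hT⟩ := exists_nat_gt (c / (3 * (1 - c * (4 / 3))))
    refine ⟨T, ?_⟩
    have h2 : c / (3 * ((T : ℝ) + 1)) ≤ 1 - c * (4 / 3) := by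
      rw [div_le_iff₀ (by positivity)]
      rw [div_lt_iff₀ (by positivity)] at hT
      nlinarith
    have h3 : c * (4 / 3 + 1 / (3 * ((T : ℝ) + 1))) = c * (4 / 3) + c / (3 * ((T : ℝ) + 1)) := by
      ring
    linarith
  set t : ℝ := (T : ℝ) + 1 with ht
  have ht0 : 0 < t := by positivity
  have hcast : ((T + 1 : ℕ) : ℝ) = t := by push_cast; rfl
  refine ⟨1 / (96 * t), by positivity, ?_⟩
  have hlim : ∀ᶠ n : ℕ in atTop, 4 * (1 + 2 * t) ≤ (n : ℝ) ^ (1 - c) :=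
    ((tendsto_rpow_atTop (show 0 < 1 - c by linarith)).comp
      tendsto_natCast_atTop_atTop).eventually_ge_atTop _
  obtain ⟨n0, hn0⟩ := eventually_atTop.1 (hlim.and (eventually_ge_atTop 1))
  refine ⟨n0, fun n hn a ha => ?_⟩
  obtain ⟨hlarge, hn1⟩ := hn0 n hn
  have hnR : (1 : ℝ) ≤ n := by exact_mod_cast hn1
  have hn0' : (0 : ℝ) < n := by linarith
  have hnc1 : (1 : ℝ) ≤ (n : ℝ) ^ c := Real.one_le_rpow hnR hc0.le
  set B : ℕ := ⌊(n : ℝ) ^ c⌋₊ + 1 with hB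
  have hBge : (n : ℝ) ^ c ≤ B := by
    rw [hB]; push_cast
    exact (Nat.lt_floor_add_one _).le
  have hBle : (B : ℝ) ≤ 2 * (n : ℝ) ^ c := by
    rw [hB]; push_cast
    have := Nat.floor_le (show (0 : ℝ) ≤ (n : ℝ) ^ c by positivity)
    linarith
  have hB1 : 1 ≤ B := by omega
  have hB0 : (0 : ℝ) < B := by exact_mod_cast hB1
  set N : ℕ := n / B with hN
  have hNB : N * B ≤ n := Nat.div_mul_le_self _ _
  set K : ℕ := (N - 1) / (T + 1) with hK
  -- sizes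
  have hNge : (n : ℝ) ^ (1 - c) / 2 - 1 ≤ N := by
    have h1 : (n : ℝ) / B < N + 1 := by
      rw [div_lt_iff₀ hB0]
      have := Nat.lt_div_mul_add (a := n) (b := B) (by omega)
      have h2 : (n : ℝ) < (N : ℝ) * B + B := by exact_mod_cast this
      nlinarith
    have h2 : (n : ℝ) ^ (1 - c) / 2 ≤ (n : ℝ) / B := by
      rw [div_le_div_iff₀ (by norm_num) hB0]
      calc (n : ℝ) ^ (1 - c) * B ≤ (n : ℝ) ^ (1 - c) * (2 * (n : ℝ) ^ c) :=
            mul_le_mul_of_nonneg_left hBle (by positivity)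
        _ = ((n : ℝ) ^ (1 - c) * (n : ℝ) ^ c) * 2 := by ring
        _ = n * 2 := by
          rw [← Real.rpow_add hn0', sub_add_cancel, Real.rpow_one]
    linarith
  have hN1 : 1 ≤ N := by
    have : (0 : ℝ) < N := by nlinarith
    exact_mod_cast this
  have hTK : (T + 1) * K < N := by
    have h := Nat.mul_div_le (N - 1) (T + 1)
    rw [← hK] at h
    omega
  have hKge : (n : ℝ) ^ (1 - c) / (4 * t) ≤ (K : ℝ) - 1 := by
    have h1 : N - 1 < (T + 1) * K + (T + 1) := by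
      have h := Nat.lt_div_mul_add (a := N - 1) (b := T + 1) (by omega)
      rw [← hK] at h
      rw [mul_comm]
      exact h
    have h2 : (N : ℝ) ≤ t * K + t := by
      have : N ≤ (T + 1) * K + (T + 1) := by omega
      have h3 : (N : ℝ) ≤ ((T + 1 : ℕ) : ℝ) * K + ((T + 1 : ℕ) : ℝ) := by exact_mod_cast this
      rwa [hcast] at h3
    rw [div_le_iff₀ (by positivity)]
    nlinarith
  -- the exponents
  set u : ℝ := (B : ℝ) ^ (1 / t) with hu
  set τ : ℝ := (B : ℝ) ^ ((2 - 1 / t) / 3) with hτ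
  have hu0 : 0 < u := Real.rpow_pos_of_pos hB0 _
  have huT : u ^ (T + 1) = B := by
    rw [hu, ← Real.rpow_natCast, ← Real.rpow_mul hB0.le, hcast, one_div,
      inv_mul_cancel₀ ht0.ne', Real.rpow_one]
  have hτ0 : 0 ≤ τ := Real.rpow_nonneg hB0.le _
  have hτ3 : τ ^ 3 * u ≤ (B : ℝ) ^ 2 := by
    rw [hτ, hu, ← Real.rpow_natCast, ← Real.rpow_mul hB0.le, ← Real.rpow_add hB0,
      ← Real.rpow_natCast (B : ℝ) 2]
    apply le_of_eq
    congr 1
    push_cast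
    ring
  have hab : ∀ i, i < n → 0 ≤ ext a i ∧ ext a i < B := by
    intro i hi
    unfold ext
    rw [dif_pos hi]
    refine ⟨Int.natCast_nonneg _, ?_⟩
    have h1 : a ⟨i, hi⟩ ≤ ⌊(n : ℝ) ^ c⌋₊ := Nat.le_floor (ha _)
    rw [hB]
    exact_mod_cast Nat.lt_succ_of_le h1
  have hmain := low_finite hNB hab hB1 hu0 huT (by omega) hTK hτ0 hτ3
  rw [VS_eq, Set.ncard_coe_finset]
  -- assembling
  have h1 : (n : ℝ) ^ (c * ((2 - 1 / t) / 3)) ≤ τ := by
    rw [hτ, Real.rpow_mul hn0'.le]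
    apply Real.rpow_le_rpow (by positivity) hBge
    have : 1 / t ≤ 1 := by
      rw [div_le_one ht0, ht]
      have := Nat.cast_nonneg (α := ℝ) T
      linarith
    linarith
  have h2 : (n : ℝ) ^ c ≤ (n : ℝ) ^ (c * ((2 - 1 / t) / 3)) * (n : ℝ) ^ (1 - c) := by
    rw [← Real.rpow_add hn0']
    apply Real.rpow_le_rpow_of_exponent_le hnR
    have e1 : c * (4 / 3 + 1 / (3 * t)) = c * (4 / 3) + c * (1 / t) / 3 := by
      field_simp
    rw [e1] at hT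
    have e2 : c * ((2 - 1 / t) / 3) + (1 - c) = c * (2 / 3) - c * (1 / t) / 3 + (1 - c) := by ring
    rw [e2]
    linarith
  have h3 : (n : ℝ) ^ (c * ((2 - 1 / t) / 3)) * ((n : ℝ) ^ (1 - c) / (4 * t)) ≤
      τ * ((K : ℝ) - 1) := mul_le_mul h1 hKge (by positivity) hτ0
  have h4 : (n : ℝ) ^ c / (4 * t) ≤ 24 * ((SV n (ext a)).card : ℝ) := by
    calc (n : ℝ) ^ c / (4 * t) ≤ ((n : ℝ) ^ (c * ((2 - 1 / t) / 3)) * (n : ℝ) ^ (1 - c)) / (4 * t) :=
          div_le_div_of_nonneg_right h2 (by positivity)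
      _ = (n : ℝ) ^ (c * ((2 - 1 / t) / 3)) * ((n : ℝ) ^ (1 - c) / (4 * t)) := by ring
      _ ≤ _ := h3.trans hmain
  have h5 : 1 / (96 * t) * (n : ℝ) ^ c = (n : ℝ) ^ c / (4 * t) / 24 := by
    field_simp
    ring
  rw [h5]
  linarith

theorem low_sSup : (3 / 4 : ℝ) ≤ sSup {c : ℝ | 0 ≤ c ∧ c ≤ 1 ∧ PP c} := by
  apply le_of_forall_lt
  intro b hb
  have h1 : max b (1 / 2) < 3 / 4 := max_lt hb (by norm_num)
  obtain ⟨c, hc1, hc2⟩ := exists_between h1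
  rw [max_lt_iff] at hc1
  refine lt_of_lt_of_le hc1.1 (le_csSup ⟨1, fun x hx => hx.2.1⟩ ⟨by linarith, by linarith, ?_⟩)
  exact PP_of_lt (by linarith) hc2

end Pool.Agent.H66.Sds
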