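import Mathlib

set_option autoImplicit false
open Finset

/-! # Covering by few translates; linear maps with large image -/

namespace Pool.Agent.H66.Sds

/-- **Greedy covering**: a set of density `1/4` and few translations. -/
theorem cover {G : Type*} [AddCommGroup G] [Fintype G] [DecidableEq G] (C : Finset G)
    (h : Fintype.card G ≤ 4 * C.card) (t : ℕ) : ∃ T0 : Finset G, T0.card ≤ t ∧
      ((univ.filter fun g : G => ∀ τ ∈ T0, g - τ ∉ C).card : ℝ) ≤
        (3 / 4 : ℝ) ^ t * Fintype.card G := by
  induction t with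
  | zero =>
    refine ⟨∅, le_rfl, ?_⟩
    rw [pow_zero, one_mul]
    exact_mod_cast card_le_univ _
  | succ t ih =>
    obtain ⟨T0, h1, h2⟩ := ih
    set U := univ.filter fun g : G => ∀ τ ∈ T0, g - τ ∉ C with hU
    -- average
    have hsum : ∑ τ : G, (U.filter fun g => g - τ ∈ C).card = U.card * C.card := by
      simp only [card_filter]
      rw [sum_comm]
      have : ∀ g ∈ U, (∑ τ : G, if g - τ ∈ C then 1 else 0) = C.card := by
        intro g _
        rw [← card_filter]
        refine card_bij (fun τ _ => g - τ) ?_ ?_ ?_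
        · intro τ hτ
          exact (mem_filter.1 hτ).2
        · intro τ _ τ' _ e
          exact sub_right_injective e
        · intro c hc
          exact ⟨g - c, mem_filter.2 ⟨mem_univ _, by rw [sub_sub_cancel]; exact hc⟩, sub_sub_cancel _ _⟩
      rw [sum_congr rfl this, sum_const, smul_eq_mul]
    obtain ⟨τ, hτ⟩ : ∃ τ : G, U.card ≤ 4 * (U.filter fun g => g - τ ∈ C).card := by
      by_contra hcon
      push Not at hcon
      have hne : (univ : Finset G).Nonempty := ⟨0, mem_univ _⟩
      have h3 : ∑ τ : G, 4 * (U.filter fun g => g - τ ∈ C).card < ∑ τ : G, U.card :=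
        sum_lt_sum_of_nonempty hne fun τ _ => hcon τ
      rw [← mul_sum, hsum, sum_const, card_univ, smul_eq_mul] at h3
      have h4 : Fintype.card G * U.card ≤ 4 * C.card * U.card := Nat.mul_le_mul_right _ h
      have : 4 * (U.card * C.card) = 4 * C.card * U.card := by ring
      omega
    refine ⟨insert τ T0, (card_insert_le _ _).trans (Nat.succ_le_succ h1), ?_⟩
    have hsub : (univ.filter fun g : G => ∀ τ' ∈ insert τ T0, g - τ' ∉ C) =
        U \ (U.filter fun g => g - τ ∈ C) := by
      ext g
      simp only [mem_filter, mem_univ, true_and, mem_sdiff, hU, mem_insert, forall_eq_or_imp]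
      tauto
    rw [hsub, card_sdiff_of_subset (filter_subset _ _),
      Nat.cast_sub (card_le_card (filter_subset _ _))]
    have h5 : (U.card : ℝ) ≤ 4 * ((U.filter fun g => g - τ ∈ C).card : ℝ) := by exact_mod_cast hτ
    rw [pow_succ]
    have h6 : (0 : ℝ) ≤ (3 / 4 : ℝ) ^ t * Fintype.card G := by positivity
    linarith

/-- all residues are covered -/
theorem cover_all {G : Type*} [AddCommGroup G] [Fintype G] [DecidableEq G] (C : Finset G)
    (h : Fintype.card G ≤ 4 * C.card) (t : ℕ) (ht : (3 / 4 : ℝ) ^ t * Fintype.card G < 1) :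
    ∃ T0 : Finset G, T0.card ≤ t ∧ ∀ g, ∃ τ ∈ T0, ∃ c ∈ C, g = c + τ := by
  obtain ⟨T0, h1, h2⟩ := cover C h t
  refine ⟨T0, h1, fun g => ?_⟩
  have h3 : (univ.filter fun g : G => ∀ τ ∈ T0, g - τ ∉ C).card = 0 := by
    have : ((univ.filter fun g : G => ∀ τ ∈ T0, g - τ ∉ C).card : ℝ) < 1 := h2.trans_lt ht
    have : (univ.filter fun g : G => ∀ τ ∈ T0, g - τ ∉ C).card < 1 := by exact_mod_cast this
    omega
  rw [card_eq_zero, filter_eq_empty_iff] at h3
  have h4 := h3 (mem_univ g)
  push Not at h4
  obtain ⟨τ, h5, h6⟩ := h4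
  exact ⟨τ, h5, g - τ, h6, (sub_add_cancel _ _).symm⟩

section

variable {ι : Type*} [Fintype ι] [DecidableEq ι] {p : ℕ} [Fact p.Prime]

/-- few linear forms vanish at a nonzero vector -/
lemma ker_card (u : ι → ZMod p) (hu : u ≠ 0) :
    p * (univ.filter fun r : ι → ZMod p => ∑ i, r i * u i = 0).card ≤
      Fintype.card (ι → ZMod p) := by
  obtain ⟨i0, hi0⟩ : ∃ i0, u i0 ≠ 0 := by
    by_contra hcon
    push Not at hcon
    exact hu (funext hcon)
  have h : ((univ : Finset (ZMod p)) ×ˢ
      (univ.filter fun r : ι → ZMod p => ∑ i, r i * u i = 0)).card ≤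
      (univ : Finset (ι → ZMod p)).card := by
    refine card_le_card_of_injOn (fun q => q.2 + Pi.single i0 q.1) (fun _ _ => mem_coe.2 (mem_univ _)) ?_
    rintro ⟨s, r⟩ h1 ⟨s', r'⟩ h2 e
    rw [mem_coe, mem_product, mem_filter] at h1 h2
    simp only [mem_univ, true_and] at h1 h2 e
    have key : ∀ (s : ZMod p) (r : ι → ZMod p), ∑ i, (r + (Pi.single i0 s : ι → ZMod p)) i * u i =
        (∑ i, r i * u i) + s * u i0 := by
      intro s r
      simp only [Pi.add_apply, add_mul, sum_add_distrib]
      congr 1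
      rw [sum_eq_single i0]
      · rw [Pi.single_eq_same]
      · intro b _ hb
        rw [Pi.single_eq_of_ne hb, zero_mul]
      · intro hb; exact absurd (mem_univ _) hb
    have e1 := key s r
    have e2 := key s' r'
    rw [e, e2, h1, h2, zero_add, zero_add] at e1
    have hs : s' = s := mul_right_cancel₀ hi0 e1
    subst hs
    rw [Prod.ext_iff]
    exact ⟨rfl, add_right_cancel e⟩
  rw [card_product, card_univ, card_univ, ZMod.card] at h
  exact h

/-- **A linear form with a large image.** -/
theorem exists_form (W : Finset (ι → ZMod p)) (hW0 : 0 < W.card) (hW : W.card ≤ p)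
    (hp : p ≤ 2 * W.card) : ∃ r : ι → ZMod p,
      p ≤ 4 * (W.image fun w => ∑ i, r i * w i).card := by
  have hp0 : 0 < p := (Fact.out : p.Prime).pos
  -- number of collisions
  set Cl : (ι → ZMod p) → ℕ := fun r =>
    ((W ×ˢ W).filter fun q => ∑ i, r i * q.1 i = ∑ i, r i * q.2 i).card with hCl
  set M := Fintype.card (ι → ZMod p) with hM
  have hM0 : 0 < M := Fintype.card_pos
  have h1 : p * ∑ r : ι → ZMod p, Cl r ≤ W.card * (p * M) + W.card * W.card * M := by
    have e1 : ∑ r : ι → ZMod p, Cl r = ∑ q ∈ W ×ˢ W,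
        (univ.filter fun r : ι → ZMod p => ∑ i, r i * q.1 i = ∑ i, r i * q.2 i).card := by
      simp only [hCl, card_filter]
      rw [sum_comm]
    rw [e1, mul_sum]
    have e2 : ∀ q ∈ W ×ˢ W, p * (univ.filter fun r : ι → ZMod p =>
        ∑ i, r i * q.1 i = ∑ i, r i * q.2 i).card ≤ (if q.1 = q.2 then p * M else 0) + M := by
      intro q _
      split_ifs with hq
      · have : (univ.filter fun r : ι → ZMod p =>
            ∑ i, r i * q.1 i = ∑ i, r i * q.2 i).card ≤ M := card_le_univ _
        exact (Nat.mul_le_mul_left p this).trans (Nat.le_add_right _ _)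
      · rw [zero_add]
        have h := ker_card (q.1 - q.2) (sub_ne_zero.2 hq)
        have e : (univ.filter fun r : ι → ZMod p => ∑ i, r i * q.1 i = ∑ i, r i * q.2 i) =
            univ.filter fun r : ι → ZMod p => ∑ i, r i * (q.1 - q.2) i = 0 := by
          ext r
          simp only [mem_filter, mem_univ, true_and, Pi.sub_apply, mul_sub, sum_sub_distrib,
            sub_eq_zero]
        rw [e]
        exact h
    refine (sum_le_sum e2).trans ?_
    rw [sum_add_distrib, sum_const, smul_eq_mul, card_product]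
    have e3 : ∑ q ∈ W ×ˢ W, (if q.1 = q.2 then p * M else 0) = W.card * (p * M) := by
      rw [sum_product]
      have : ∀ x ∈ W, (∑ y ∈ W, if (x, y).1 = (x, y).2 then p * M else 0) = p * M := by
        intro x hx
        simp only
        rw [sum_ite_eq, if_pos hx]
      rw [sum_congr rfl this, sum_const, smul_eq_mul]
    rw [e3]
  obtain ⟨r, hr⟩ : ∃ r : ι → ZMod p, Cl r ≤ 2 * W.card := by
    by_contra hcon
    push Not at hcon
    have h2 : ∑ r : ι → ZMod p, 2 * W.card < ∑ r : ι → ZMod p, Cl r :=
      sum_lt_sum_of_nonempty ⟨0, mem_univ _⟩ fun r _ => hcon r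
    rw [sum_const, card_univ, smul_eq_mul] at h2
    have h3 : p * (M * (2 * W.card)) < p * ∑ r : ι → ZMod p, Cl r := Nat.mul_lt_mul_of_pos_left h2 hp0
    have h4 : W.card * W.card * M ≤ W.card * p * M :=
      Nat.mul_le_mul_right _ (Nat.mul_le_mul_left _ hW)
    have e4 : p * (M * (2 * W.card)) = W.card * (p * M) + W.card * p * M := by ring
    omega
  refine ⟨r, ?_⟩
  set f : (ι → ZMod p) → ZMod p := fun w => ∑ i, r i * w i with hf
  have h2 : W.card = ∑ v ∈ W.image f, (W.filter fun w => f w = v).card :=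
    card_eq_sum_card_image f W
  have h3 : Cl r = ∑ v ∈ W.image f, (W.filter fun w => f w = v).card ^ 2 := by
    have e1 : Cl r = ∑ v ∈ W.image f,
        (((W ×ˢ W).filter fun q => f q.1 = f q.2).filter fun q => f q.1 = v).card := by
      have := card_eq_sum_card_fiberwise (f := fun q : (ι → ZMod p) × (ι → ZMod p) => f q.1)
        (s := (W ×ˢ W).filter fun q => f q.1 = f q.2) (t := W.image f) (by
          intro q hq
          rw [mem_coe, mem_filter, mem_product] at hq
          exact mem_coe.2 (mem_image_of_mem _ hq.1.1))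
      exact this
    rw [e1]
    refine sum_congr rfl fun v _ => ?_
    rw [sq, ← card_product]
    congr 1
    ext q
    simp only [mem_filter, mem_product]
    constructor
    · rintro ⟨⟨⟨a1, a2⟩, a3⟩, a4⟩
      exact ⟨⟨a1, a4⟩, a2, by rw [← a3]; exact a4⟩
    · rintro ⟨⟨a1, a4⟩, a2, a5⟩
      exact ⟨⟨⟨a1, a2⟩, by rw [a4, a5]⟩, a4⟩
  have h4 : W.card ^ 2 ≤ (W.image f).card * Cl r := by
    rw [h3]
    conv_lhs => rw [h2]
    exact sq_sum_le_card_mul_sum_sq
  have h5 : W.card ^ 2 ≤ (W.image f).card * (2 * W.card) := h4.trans (Nat.mul_le_mul_left _ hr)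
  have h6 : W.card ≤ 2 * (W.image f).card := by
    have : W.card * W.card ≤ (2 * (W.image f).card) * W.card := by nlinarith
    exact Nat.le_of_mul_le_mul_right this hW0
  omega

end

end Pool.Agent.H66.Sds
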