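import Mathlib

set_option autoImplicit false
open Finset Filter Topology

/-! # Sums and differences of simplices -/

namespace Pool.Agent.H66.Sds

/-- vectors of `m` natural numbers with sum `s` -/
noncomputable def Dl (m s : ℕ) : Finset (Fin m → ℕ) :=
  (Fintype.piFinset fun _ => range (s + 1)).filter fun x => ∑ i, x i = s

lemma mem_Dl {m s : ℕ} {x : Fin m → ℕ} : x ∈ Dl m s ↔ ∑ i, x i = s := by
  unfold Dl
  rw [mem_filter, Fintype.mem_piFinset]
  refine ⟨fun h => h.2, fun h => ⟨fun i => ?_, h⟩⟩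
  rw [mem_range]
  have := single_le_sum (f := x) (s := univ) (fun _ _ => Nat.zero_le _) (mem_univ i)
  omega

lemma geom_half (s : ℕ) : ∑ v ∈ range (s + 1), (1 / 2 : ℝ) ^ v ≤ 2 := by
  have h : ∑ v ∈ range (s + 1), (1 / 2 : ℝ) ^ v = 2 - (1 / 2 : ℝ) ^ s := by
    induction s with
    | zero => norm_num
    | succ s ih => rw [sum_range_succ, ih, pow_succ]; ring
  rw [h]
  have : (0 : ℝ) ≤ (1 / 2 : ℝ) ^ s := by positivity
  linarith

/-- few vectors with given sum -/
theorem card_Dl (m s : ℕ) : ((Dl m s).card : ℝ) ≤ 2 ^ (s + m) := by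
  have h1 : ∑ x ∈ Dl m s, ∏ i, (1 / 2 : ℝ) ^ (x i) ≤ 2 ^ m := by
    calc ∑ x ∈ Dl m s, ∏ i, (1 / 2 : ℝ) ^ (x i)
        ≤ ∑ x ∈ Fintype.piFinset fun _ : Fin m => range (s + 1), ∏ i, (1 / 2 : ℝ) ^ (x i) := by
          unfold Dl
          exact sum_le_sum_of_subset_of_nonneg (filter_subset _ _) fun x _ _ =>
            prod_nonneg fun i _ => by positivity
      _ = ∏ _i : Fin m, ∑ v ∈ range (s + 1), (1 / 2 : ℝ) ^ v :=
          (prod_univ_sum (fun _ : Fin m => range (s + 1)) fun _ v => (1 / 2 : ℝ) ^ v).symm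
      _ ≤ ∏ _i : Fin m, (2 : ℝ) :=
          prod_le_prod (fun _ _ => sum_nonneg fun _ _ => by positivity) fun _ _ => geom_half s
      _ = 2 ^ m := by rw [prod_const, card_univ, Fintype.card_fin]
  have h2 : ∑ x ∈ Dl m s, ∏ i, (1 / 2 : ℝ) ^ (x i) = (Dl m s).card * (1 / 2) ^ s := by
    rw [← nsmul_eq_mul, ← sum_const]
    refine sum_congr rfl fun x hx => ?_
    rw [prod_pow_eq_pow_sum, mem_Dl.1 hx]
  rw [h2] at h1
  have h3 : ((Dl m s).card : ℝ) = ((Dl m s).card * (1 / 2) ^ s) * 2 ^ s := by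
    rw [mul_assoc, ← mul_pow]
    norm_num
  rw [h3, pow_add, mul_comm (2 ^ s)]
  exact mul_le_mul_of_nonneg_right h1 (by positivity)

/-- vectors of integers of size at most `K`, positive part `a`, negative part `b` -/
noncomputable def Ws (m K a b : ℕ) : Finset (Fin m → ℤ) :=
  (Fintype.piFinset fun _ => Icc (-(K : ℤ)) K).filter fun w =>
    ∑ i, (w i).toNat = a ∧ ∑ i, (-w i).toNat = b

/-- weight of one coordinate -/
noncomputable def xK (r : ℝ) (K : ℕ) : ℝ := ∑ v ∈ Icc (-(K : ℤ)) K, r ^ (v.toNat + (-v).toNat)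

/-- many vectors with given positive and negative parts -/
theorem exists_Ws {r : ℝ} (hr : 0 < r) (m K : ℕ) : ∃ a b : ℕ, a ≤ m * K ∧ b ≤ m * K ∧
    xK r K ^ m ≤ ((m * K + 1 : ℕ) : ℝ) ^ 2 * ((Ws m K a b).card * r ^ (a + b)) := by
  set Om := Fintype.piFinset fun _ : Fin m => Icc (-(K : ℤ)) K with hOm
  have h1 : xK r K ^ m = ∑ w ∈ Om, ∏ i, r ^ ((w i).toNat + (-w i).toNat) := by
    rw [hOm, ← prod_univ_sum (fun _ : Fin m => Icc (-(K : ℤ)) K) fun _ v => r ^ (v.toNat + (-v).toNat),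
      prod_const, card_univ, Fintype.card_fin]
    rfl
  set R := range (m * K + 1) ×ˢ range (m * K + 1) with hR
  have hmaps : ∀ w ∈ Om, (∑ i, (w i).toNat, ∑ i, (-w i).toNat) ∈ R := by
    intro w hw
    rw [hOm, Fintype.mem_piFinset] at hw
    rw [hR, mem_product, mem_range, mem_range]
    have e1 : ∑ i, (w i).toNat ≤ ∑ _i : Fin m, K := sum_le_sum fun i _ => by
      have := mem_Icc.1 (hw i)
      omega
    have e2 : ∑ i, (-w i).toNat ≤ ∑ _i : Fin m, K := sum_le_sum fun i _ => by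
      have := mem_Icc.1 (hw i)
      omega
    rw [sum_const, card_univ, Fintype.card_fin, smul_eq_mul] at e1 e2
    simp only
    omega
  have h2 : xK r K ^ m = ∑ q ∈ R, (Ws m K q.1 q.2).card * r ^ (q.1 + q.2) := by
    rw [h1, ← sum_fiberwise_of_maps_to hmaps]
    refine sum_congr rfl fun q _ => ?_
    rw [← nsmul_eq_mul, ← sum_const]
    refine sum_congr ?_ ?_
    · unfold Ws
      ext w
      simp only [mem_filter, Prod.ext_iff, hOm]
    · intro w hw
      unfold Ws at hw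
      rw [mem_filter] at hw
      rw [prod_pow_eq_pow_sum, sum_add_distrib, hw.2.1, hw.2.2]
  have hRne : R.Nonempty := ⟨(0, 0), mem_product.2 ⟨mem_range.2 (Nat.succ_pos _), mem_range.2 (Nat.succ_pos _)⟩⟩
  obtain ⟨q, hq, hmax⟩ := exists_max_image R (fun q => ((Ws m K q.1 q.2).card : ℝ) * r ^ (q.1 + q.2)) hRne
  refine ⟨q.1, q.2, ?_, ?_, ?_⟩
  · rw [hR, mem_product, mem_range, mem_range] at hq; omega
  · rw [hR, mem_product, mem_range, mem_range] at hq; omega
  · rw [h2]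
    refine (sum_le_sum hmax).trans ?_
    rw [sum_const, nsmul_eq_mul, hR, card_product, card_range]
    push_cast
    apply le_of_eq
    ring

/-- value of the coordinate weight -/
lemma xK_eq (r : ℝ) (K : ℕ) : xK r K = 1 + 2 * ∑ v ∈ range K, r ^ (v + 1) := by
  induction K with
  | zero =>
    unfold xK
    simp
  | succ K ih =>
    unfold xK at ih ⊢
    have h1 : Icc (-((K + 1 : ℕ) : ℤ)) ((K + 1 : ℕ) : ℤ) =
        insert (((K : ℤ)) + 1) (insert (-((K : ℤ) + 1)) (Icc (-(K : ℤ)) K)) := by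
      ext v
      simp only [mem_Icc, mem_insert]
      push_cast
      omega
    have h2 : (-((K : ℤ) + 1)) ∉ Icc (-(K : ℤ)) K := by rw [mem_Icc]; omega
    have h3 : ((K : ℤ) + 1) ∉ insert (-((K : ℤ) + 1)) (Icc (-(K : ℤ)) K) := by
      rw [mem_insert, mem_Icc]; omega
    rw [h1, sum_insert h3, sum_insert h2, ih, sum_range_succ]
    have e1 : ((K : ℤ) + 1).toNat + (-((K : ℤ) + 1)).toNat = K + 1 := by omega
    have e2 : (-((K : ℤ) + 1)).toNat + (-(-((K : ℤ) + 1))).toNat = K + 1 := by omega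
    rw [e1, e2]
    ring

lemma xK_le {K : ℕ} : xK (√2 - 1) K ≤ 1 + √2 := by
  have h2 : √2 * √2 = 2 := Real.mul_self_sqrt (by norm_num)
  have h1 : 1 < √2 := by
    rw [show (1 : ℝ) = √1 by rw [Real.sqrt_one]]
    exact Real.sqrt_lt_sqrt (by norm_num) (by norm_num)
  have key : ∀ K : ℕ, xK (√2 - 1) K = 1 + √2 - √2 * (√2 - 1) ^ K := by
    intro K
    rw [xK_eq]
    induction K with
    | zero => simp
    | succ K ih =>
      rw [sum_range_succ, mul_add, ← add_assoc, ih]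
      have : (√2 - 1) ^ (K + 1) = (√2 - 1) ^ K * (√2 - 1) := pow_succ _ _
      rw [this]
      linear_combination ((√2 - 1) ^ K) * h2
  rw [key]
  have : 0 ≤ √2 * (√2 - 1) ^ K := mul_nonneg (by linarith) (pow_nonneg (by linarith) _)
  linarith

lemma xK_tendsto : Tendsto (fun K => xK (√2 - 1) K) atTop (𝓝 (1 + √2)) := by
  have h2 : √2 * √2 = 2 := Real.mul_self_sqrt (by norm_num)
  have h1 : 1 < √2 := by
    rw [show (1 : ℝ) = √1 by rw [Real.sqrt_one]]
    exact Real.sqrt_lt_sqrt (by norm_num) (by norm_num)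
  have h3 : √2 < 2 := by nlinarith
  have key : ∀ K : ℕ, xK (√2 - 1) K = 1 + √2 - √2 * (√2 - 1) ^ K := by
    intro K
    rw [xK_eq]
    induction K with
    | zero => simp
    | succ K ih =>
      rw [sum_range_succ, mul_add, ← add_assoc, ih]
      have : (√2 - 1) ^ (K + 1) = (√2 - 1) ^ K * (√2 - 1) := pow_succ _ _
      rw [this]
      linear_combination ((√2 - 1) ^ K) * h2
  have h4 : Tendsto (fun K : ℕ => (√2 - 1) ^ K) atTop (𝓝 0) :=
    tendsto_pow_atTop_nhds_zero_of_lt_one (by linarith) (by linarith)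
  have h5 := (tendsto_const_nhds (x := 1 + √2)).sub (h4.const_mul √2)
  rw [mul_zero, sub_zero] at h5
  exact h5.congr fun K => (key K).symm

end Pool.Agent.H66.Sds
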