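import Mathlib
import Pool.Agent.H66.Sds.Up1
import Pool.Agent.H66.Sds.Up2

set_option autoImplicit false
open Finset Filter Topology
open scoped Pointwise

/-! # Digits: few sums, all residues as differences -/

namespace Pool.Agent.H66.Sds

/-- the combinatorial step: from `m`, `K`, `a`, `b` to digits -/
theorem digits_of {m K a b t : ℕ} {p : ℕ} (hp : p.Prime) (hKp : 2 * K < p)
    (h0 : 0 < (Ws m K a b).card) (h1 : (Ws m K a b).card ≤ p) (h2 : p ≤ 2 * (Ws m K a b).card)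
    (ht : (3 / 4 : ℝ) ^ t * p < 1) :
    ∃ A B : Finset ℕ, (∀ z : ℤ, ∃ α ∈ A, ∃ β ∈ B, (p : ℤ) ∣ z - ((β : ℤ) - α)) ∧
      ((A + B).card : ℝ) ≤ 2 ^ (a + b + m) * t := by
  haveI : Fact p.Prime := ⟨hp⟩
  haveI : NeZero p := ⟨hp.pos.ne'⟩
  set cs : (Fin m → ℤ) → (Fin m → ZMod p) := fun w i => (w i : ZMod p) with hcs
  have hinj : Set.InjOn cs (Ws m K a b : Set (Fin m → ℤ)) := by
    intro w hw w' hw' e
    rw [mem_coe] at hw hw'
    unfold Ws at hw hw'
    rw [mem_filter, Fintype.mem_piFinset] at hw hw'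
    funext i
    have e1 : (w i : ZMod p) = (w' i : ZMod p) := congrFun e i
    rw [ZMod.intCast_eq_intCast_iff_dvd_sub] at e1
    have b1 := mem_Icc.1 (hw.1 i)
    have b2 := mem_Icc.1 (hw'.1 i)
    have h3 : w' i - w i = 0 := by
      refine Int.eq_zero_of_abs_lt_dvd e1 ?_
      rw [abs_lt]
      omega
    omega
  have hcard : ((Ws m K a b).image cs).card = (Ws m K a b).card := card_image_of_injOn hinj
  obtain ⟨r, hr⟩ := exists_form ((Ws m K a b).image cs) (by rw [hcard]; exact h0)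
    (by rw [hcard]; exact h1) (by rw [hcard]; exact h2)
  set C := (((Ws m K a b).image cs).image fun w => ∑ i, r i * w i) with hC
  have hZ : Fintype.card (ZMod p) = p := ZMod.card p
  obtain ⟨T0, hT0, hcov⟩ := cover_all C (by rw [hZ]; exact hr) t (by rw [hZ]; exact ht)
  set ps : (Fin m → ℕ) → ℕ := fun x => ∑ i, (r i).val * x i with hps
  have hpsadd : ∀ x y, ps (x + y) = ps x + ps y := by
    intro x y
    simp only [hps, Pi.add_apply, mul_add, sum_add_distrib]
  refine ⟨(Dl m b).image ps, (Dl m a).image ps + T0.image ZMod.val, ?_, ?_⟩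
  · intro z
    obtain ⟨τ, hτ, c, hc, hz⟩ := hcov (z : ZMod p)
    rw [hC, mem_image] at hc
    obtain ⟨w', hw', rfl⟩ := hc
    rw [mem_image] at hw'
    obtain ⟨w, hw, rfl⟩ := hw'
    unfold Ws at hw
    rw [mem_filter] at hw
    refine ⟨ps fun i => (-w i).toNat, mem_image_of_mem _ (mem_Dl.2 hw.2.2),
      ps (fun i => (w i).toNat) + τ.val,
      add_mem_add (mem_image_of_mem _ (mem_Dl.2 hw.2.1)) (mem_image_of_mem _ hτ), ?_⟩
    rw [← ZMod.intCast_eq_intCast_iff_dvd_sub, hz]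
    push_cast
    simp only [hps, hcs]
    push_cast
    rw [ZMod.natCast_zmod_val]
    have key : (∑ i, ((r i).val : ZMod p) * (((w i).toNat : ℕ) : ZMod p)) -
        ∑ i, ((r i).val : ZMod p) * (((-w i).toNat : ℕ) : ZMod p) = ∑ i, r i * (w i : ZMod p) := by
      rw [← sum_sub_distrib]
      refine sum_congr rfl fun i _ => ?_
      rw [ZMod.natCast_zmod_val, ← mul_sub]
      congr 1
      have : (((w i).toNat : ℤ) - ((-w i).toNat : ℤ)) = w i := by omega
      calc (((w i).toNat : ℕ) : ZMod p) - (((-w i).toNat : ℕ) : ZMod p)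
          = ((((w i).toNat : ℤ) - ((-w i).toNat : ℤ) : ℤ) : ZMod p) := by push_cast; ring
        _ = (w i : ZMod p) := by rw [this]
    rw [← key]
    ring
  · have hsub : (Dl m b).image ps + ((Dl m a).image ps + T0.image ZMod.val) ⊆
        (Dl m (a + b)).image ps + T0.image ZMod.val := by
      rw [← add_assoc]
      apply add_subset_add_right
      intro v hv
      rw [Finset.mem_add] at hv
      obtain ⟨x', hx', y', hy', rfl⟩ := hv
      rw [mem_image] at hx' hy'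
      obtain ⟨x, hx, rfl⟩ := hx'
      obtain ⟨y, hy, rfl⟩ := hy'
      rw [← hpsadd]
      apply mem_image_of_mem
      rw [mem_Dl] at hx hy ⊢
      simp only [Pi.add_apply, sum_add_distrib]
      omega
    have h3 : ((Dl m b).image ps + ((Dl m a).image ps + T0.image ZMod.val)).card ≤
        (Dl m (a + b)).card * t :=
      (card_le_card hsub).trans ((card_add_le).trans
        (Nat.mul_le_mul card_image_le (card_image_le.trans hT0)))
    calc (((Dl m b).image ps + ((Dl m a).image ps + T0.image ZMod.val)).card : ℝ)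
        ≤ ((Dl m (a + b)).card : ℝ) * t := by exact_mod_cast h3
      _ ≤ _ := mul_le_mul_of_nonneg_right (card_Dl m (a + b)) (Nat.cast_nonneg _)

/-- **Digits with exponent near `log 2 / log (1 + √2)`.** -/
theorem digit_pair {θ : ℝ} (hθ : Real.log 2 / Real.log (1 + √2) < θ) :
    ∃ p : ℕ, 2 ≤ p ∧ ∃ A B : Finset ℕ,
      (∀ z : ℤ, ∃ α ∈ A, ∃ β ∈ B, (p : ℤ) ∣ z - ((β : ℤ) - α)) ∧
      ((A + B).card : ℝ) ≤ (p : ℝ) ^ θ := by
  have hs0 : 0 < √2 := Real.sqrt_pos.2 (by norm_num)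
  have h22 : √2 * √2 = 2 := Real.mul_self_sqrt (by norm_num)
  have hs1 : 1 < √2 := by nlinarith
  have hx1 : 1 < 1 + √2 := by linarith
  have hlx : 0 < Real.log (1 + √2) := Real.log_pos hx1
  have hl2 : 0 < Real.log 2 := Real.log_pos (by norm_num)
  have hθ0 : 0 < θ := lt_trans (div_pos hl2 hlx) hθ
  rw [div_lt_iff₀ hlx] at hθ
  -- the coordinate range
  have hlim : Tendsto (fun K => θ * Real.log (xK (√2 - 1) K)) atTop (𝓝 (θ * Real.log (1 + √2))) :=
    ((Real.continuousAt_log (by linarith)).tendsto.comp xK_tendsto).const_mul θ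
  obtain ⟨K, hK⟩ := (hlim.eventually (lt_mem_nhds hθ)).exists
  set x' := xK (√2 - 1) K with hx'
  have hx'le : x' ≤ 1 + √2 := xK_le
  have hx'1 : 1 < x' := by
    by_contra hcon
    push Not at hcon
    have h0 : 0 ≤ x' := by
      rw [hx']; unfold xK
      exact sum_nonneg fun _ _ => pow_nonneg (by linarith) _
    have : Real.log x' ≤ 0 := Real.log_nonpos h0 hcon
    nlinarith
  set η := θ * Real.log x' - Real.log 2 with hη
  have hη0 : 0 < η := by linarith
  -- the number of translates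
  obtain ⟨L, hL⟩ : ∃ L : ℕ, (3 / 4 : ℝ) ^ L ≤ 1 / (2 * (2 * (K : ℝ) + 1)) := by
    obtain ⟨L, hL⟩ := exists_pow_lt_of_lt_one (show (0 : ℝ) < 1 / (2 * (2 * (K : ℝ) + 1)) by positivity)
      (show (3 / 4 : ℝ) < 1 by norm_num)
    exact ⟨L, hL.le⟩
  -- the dimension
  have hev1 : ∀ᶠ m : ℕ in atTop, ((L : ℝ) * (2 * ((K : ℝ) + 1) ^ (2 * θ))) *
      ((m : ℝ) ^ (1 + 2 * θ) * Real.exp (-η * m)) < 1 := by
    have h1 : Tendsto (fun m : ℕ => ((L : ℝ) * (2 * ((K : ℝ) + 1) ^ (2 * θ))) *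
        ((m : ℝ) ^ (1 + 2 * θ) * Real.exp (-η * m))) atTop (𝓝 _) :=
      ((tendsto_rpow_mul_exp_neg_mul_atTop_nhds_zero (1 + 2 * θ) η hη0).comp
        tendsto_natCast_atTop_atTop).const_mul _
    rw [mul_zero] at h1
    exact h1.eventually (gt_mem_nhds one_pos)
  have hev2 : ∀ᶠ m : ℕ in atTop, (2 * (K : ℝ) + 1) ^ θ < 2 ^ m :=
    (tendsto_pow_atTop_atTop_of_one_lt (show (1 : ℝ) < 2 by norm_num)).eventually_gt_atTop _
  obtain ⟨m, hm1, hm2, hm3⟩ := (hev1.and (hev2.and (eventually_ge_atTop 1))).exists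
  have hmR : (1 : ℝ) ≤ m := by exact_mod_cast hm3
  obtain ⟨a, b, -, -, hab⟩ := exists_Ws (r := √2 - 1) (by linarith) m K
  rw [← hx'] at hab
  set P : ℝ := ((m * K + 1 : ℕ) : ℝ) with hP
  have hP0 : 0 < P := by rw [hP]; exact_mod_cast Nat.succ_pos _
  set w := ((Ws m K a b).card : ℝ) with hw
  -- the size of `W`
  have hWge : x' ^ (a + b + m) ≤ P ^ 2 * w := by
    have e1 : (√2 - 1) * (1 + √2) = 1 := by linear_combination h22
    have e2 : (√2 - 1) ^ (a + b) * (1 + √2) ^ (a + b) = 1 := by rw [← mul_pow, e1, one_pow]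
    have h1 : x' ^ (a + b) ≤ (1 + √2) ^ (a + b) := pow_le_pow_left₀ (by linarith) hx'le _
    calc x' ^ (a + b + m) = x' ^ (a + b) * x' ^ m := pow_add _ _ _
      _ ≤ (1 + √2) ^ (a + b) * (P ^ 2 * (w * (√2 - 1) ^ (a + b))) :=
          mul_le_mul h1 hab (by positivity) (by positivity)
      _ = P ^ 2 * w * ((√2 - 1) ^ (a + b) * (1 + √2) ^ (a + b)) := by ring
      _ = P ^ 2 * w := by rw [e2, mul_one]
  have hw0 : 0 < w := by
    by_contra hcon
    push Not at hcon
    have h3 : 0 < x' ^ (a + b + m) := by positivity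
    have h4 : P ^ 2 * w ≤ 0 := mul_nonpos_of_nonneg_of_nonpos (by positivity) hcon
    linarith
  have hW0 : 0 < (Ws m K a b).card := by
    have : (0 : ℝ) < ((Ws m K a b).card : ℝ) := hw0
    exact_mod_cast this
  obtain ⟨p, hp, hp1, hp2⟩ := Nat.exists_prime_lt_and_le_two_mul (Ws m K a b).card hW0.ne'
  -- the main estimate
  have hexp : (2 : ℝ) ^ (a + b + m) * Real.exp (η * m) ≤ (x' ^ (a + b + m)) ^ θ := by
    have e1 : (x' ^ (a + b + m)) ^ θ = Real.exp (((a + b + m : ℕ) : ℝ) * (θ * Real.log x')) := by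
      rw [← Real.rpow_natCast, ← Real.rpow_mul (by linarith), Real.rpow_def_of_pos (by linarith)]
      congr 1
      ring
    have e2 : (2 : ℝ) ^ (a + b + m) = Real.exp (((a + b + m : ℕ) : ℝ) * Real.log 2) := by
      rw [mul_comm, ← Real.rpow_def_of_pos (by norm_num), Real.rpow_natCast]
    rw [e1, e2, ← Real.exp_add]
    apply Real.exp_le_exp.2
    have h5 : (m : ℝ) ≤ ((a + b + m : ℕ) : ℝ) := by exact_mod_cast Nat.le_add_left _ _
    have h6 : η * m ≤ η * ((a + b + m : ℕ) : ℝ) := mul_le_mul_of_nonneg_left h5 hη0.le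
    have h7 : ((a + b + m : ℕ) : ℝ) * (θ * Real.log x') =
        ((a + b + m : ℕ) : ℝ) * Real.log 2 + η * ((a + b + m : ℕ) : ℝ) := by
      rw [hη]; ring
    linarith
  have hwθ : (2 : ℝ) ^ (a + b + m) * Real.exp (η * m) ≤ P ^ (2 * θ) * w ^ θ := by
    refine hexp.trans ?_
    have h1 : (x' ^ (a + b + m)) ^ θ ≤ (P ^ 2 * w) ^ θ :=
      Real.rpow_le_rpow (by positivity) hWge hθ0.le
    refine h1.trans (le_of_eq ?_)
    rw [Real.mul_rpow (by positivity) hw0.le, ← Real.rpow_natCast P 2, ← Real.rpow_mul hP0.le]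
    norm_num
  have hPle : P ≤ ((K : ℝ) + 1) * m := by
    rw [hP]; push_cast
    nlinarith [Nat.cast_nonneg (α := ℝ) K]
  have hPθ : P ^ (2 * θ) ≤ ((K : ℝ) + 1) ^ (2 * θ) * (m : ℝ) ^ (2 * θ) := by
    rw [← Real.mul_rpow (by positivity) (by positivity)]
    exact Real.rpow_le_rpow hP0.le hPle (by linarith)
  have hmain : ((L * (m + 1) : ℕ) : ℝ) * P ^ (2 * θ) ≤ Real.exp (η * m) := by
    have h1 : ((L * (m + 1) : ℕ) : ℝ) ≤ L * (2 * m) := by
      push_cast
      exact mul_le_mul_of_nonneg_left (by linarith) (Nat.cast_nonneg _)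
    have h2 : ((L * (m + 1) : ℕ) : ℝ) * P ^ (2 * θ) ≤
        (L * (2 * m)) * (((K : ℝ) + 1) ^ (2 * θ) * (m : ℝ) ^ (2 * θ)) :=
      mul_le_mul h1 hPθ (by positivity) (by positivity)
    refine h2.trans ?_
    have h3 : (m : ℝ) ^ (1 + 2 * θ) = m * (m : ℝ) ^ (2 * θ) := by
      rw [Real.rpow_add (by linarith), Real.rpow_one]
    rw [h3, show -η * (m : ℝ) = -(η * m) by ring, Real.exp_neg] at hm1
    have h4 : ((L : ℝ) * (2 * ((K : ℝ) + 1) ^ (2 * θ))) * ((m * (m : ℝ) ^ (2 * θ)) *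
        (Real.exp (η * m))⁻¹) = ((L * (2 * m)) * (((K : ℝ) + 1) ^ (2 * θ) * (m : ℝ) ^ (2 * θ))) /
        Real.exp (η * m) := by
      rw [div_eq_mul_inv]; ring
    rw [h4, div_lt_one (Real.exp_pos _)] at hm1
    exact hm1.le
  have hfin : (2 : ℝ) ^ (a + b + m) * ((L * (m + 1) : ℕ) : ℝ) ≤ w ^ θ := by
    have hPθ0 : 0 < P ^ (2 * θ) := Real.rpow_pos_of_pos hP0 _
    have h1 : ((2 : ℝ) ^ (a + b + m) * ((L * (m + 1) : ℕ) : ℝ)) * P ^ (2 * θ) ≤ w ^ θ * P ^ (2 * θ) := by
      calc ((2 : ℝ) ^ (a + b + m) * ((L * (m + 1) : ℕ) : ℝ)) * P ^ (2 * θ)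
          = (2 : ℝ) ^ (a + b + m) * (((L * (m + 1) : ℕ) : ℝ) * P ^ (2 * θ)) := by ring
        _ ≤ (2 : ℝ) ^ (a + b + m) * Real.exp (η * m) := mul_le_mul_of_nonneg_left hmain (by positivity)
        _ ≤ P ^ (2 * θ) * w ^ θ := hwθ
        _ = _ := by ring
    exact le_of_mul_le_mul_right h1 hPθ0
  -- the prime is larger than `2 K`
  have hKp : 2 * K < p := by
    have hbig : (2 * (K : ℝ) + 1) ^ θ < w ^ θ := by
      have h8 : (2 : ℝ) ^ m ≤ w ^ θ := by
        have hL1 : (1 : ℝ) ≤ ((L * (m + 1) : ℕ) : ℝ) := by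
          have : L ≠ 0 := by
            rintro rfl
            rw [pow_zero, le_div_iff₀ (by positivity)] at hL
            have := Nat.cast_nonneg (α := ℝ) K
            linarith
          exact_mod_cast Nat.mul_pos (Nat.pos_of_ne_zero this) (Nat.succ_pos m)
        have h9 : (2 : ℝ) ^ m ≤ (2 : ℝ) ^ (a + b + m) :=
          pow_le_pow_right₀ (by norm_num) (Nat.le_add_left _ _)
        calc (2 : ℝ) ^ m ≤ (2 : ℝ) ^ (a + b + m) * 1 := by rw [mul_one]; exact h9
          _ ≤ (2 : ℝ) ^ (a + b + m) * ((L * (m + 1) : ℕ) : ℝ) :=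
              mul_le_mul_of_nonneg_left hL1 (by positivity)
          _ ≤ w ^ θ := hfin
      linarith
    have h10 : 2 * (K : ℝ) + 1 < w := by
      by_contra hcon
      push Not at hcon
      exact absurd hbig (not_lt.2 (Real.rpow_le_rpow hw0.le hcon hθ0.le))
    have h11 : 2 * K + 1 < (Ws m K a b).card := by
      rw [hw] at h10
      exact_mod_cast h10
    omega
  -- the number of translates is sufficient
  have ht : (3 / 4 : ℝ) ^ (L * (m + 1)) * p < 1 := by
    have hWle : ((Ws m K a b).card : ℝ) ≤ (2 * (K : ℝ) + 1) ^ m := by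
      have h1 : (Ws m K a b).card ≤ (2 * K + 1) ^ m := by
        unfold Ws
        refine (card_filter_le _ _).trans ?_
        rw [Fintype.card_piFinset_const, Int.card_Icc]
        apply Nat.pow_le_pow_left
        omega
      exact_mod_cast h1
    have hple : (p : ℝ) ≤ 2 * (2 * (K : ℝ) + 1) ^ m := by
      have : (p : ℝ) ≤ 2 * ((Ws m K a b).card : ℝ) := by exact_mod_cast hp2
      linarith
    have h1 : (3 / 4 : ℝ) ^ (L * (m + 1)) ≤ (1 / (2 * (2 * (K : ℝ) + 1))) ^ (m + 1) := by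
      rw [pow_mul]
      exact pow_le_pow_left₀ (by positivity) hL _
    have hq : (0 : ℝ) < 2 * (K : ℝ) + 1 := by positivity
    calc (3 / 4 : ℝ) ^ (L * (m + 1)) * p
        ≤ (1 / (2 * (2 * (K : ℝ) + 1))) ^ (m + 1) * (2 * (2 * (K : ℝ) + 1) ^ m) :=
          mul_le_mul h1 hple (by positivity) (by positivity)
      _ = 1 / (2 ^ m * (2 * (K : ℝ) + 1)) := by
          rw [div_pow, one_pow, mul_pow, pow_succ, pow_succ]
          field_simp
      _ < 1 := by
          rw [div_lt_one (by positivity)]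
          have h2 : (2 : ℝ) ≤ 2 ^ m := by
            calc (2 : ℝ) = 2 ^ 1 := by norm_num
              _ ≤ 2 ^ m := pow_le_pow_right₀ (by norm_num) hm3
          have h3 : (1 : ℝ) ≤ 2 * (K : ℝ) + 1 := by
            have := Nat.cast_nonneg (α := ℝ) K
            linarith
          nlinarith
  obtain ⟨A, B, hAB, hcard⟩ := digits_of hp hKp hW0 hp1.le hp2 ht
  refine ⟨p, hp.two_le, A, B, hAB, hcard.trans (hfin.trans ?_)⟩
  exact Real.rpow_le_rpow hw0.le (by rw [hw]; exact_mod_cast hp1.le) hθ0.le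

end Pool.Agent.H66.Sds
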