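import Mathlib
import Pool.Agent.H66.Sds.Low3
import Pool.Agent.H66.Sds.Up3

set_option autoImplicit false
open Finset Filter Topology
open scoped Pointwise

/-! # Expansions in the digits and the final upper bound -/

namespace Pool.Agent.H66.Sds

/-- numbers with digits in `A` in base `p` and leading part in `S` -/
def Ex (p : ℕ) (A S : Finset ℕ) : ℕ → Finset ℕ
  | 0 => S
  | T + 1 => (A ×ˢ Ex p A S T).image fun q => q.1 + p * q.2

lemma mem_Ex_succ {p T : ℕ} {A S : Finset ℕ} {v : ℕ} : v ∈ Ex p A S (T + 1) ↔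
    ∃ α ∈ A, ∃ x ∈ Ex p A S T, α + p * x = v := by
  show v ∈ (A ×ˢ Ex p A S T).image (fun q => q.1 + p * q.2) ↔ _
  rw [mem_image]
  constructor
  · rintro ⟨q, hq, rfl⟩
    rw [mem_product] at hq
    exact ⟨q.1, hq.1, q.2, hq.2, rfl⟩
  · rintro ⟨α, hα, x, hx, rfl⟩
    exact ⟨(α, x), mem_product.2 ⟨hα, hx⟩, rfl⟩

/-- few sums -/
lemma card_Ex (p : ℕ) (A B S S' : Finset ℕ) (T : ℕ) :
    (Ex p A S T + Ex p B S' T).card ≤ (A + B).card ^ T * (S + S').card := by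
  induction T with
  | zero => rw [pow_zero, one_mul]; rfl
  | succ T ih =>
    have hsub : Ex p A S (T + 1) + Ex p B S' (T + 1) ⊆
        ((A + B) ×ˢ (Ex p A S T + Ex p B S' T)).image fun q => q.1 + p * q.2 := by
      intro v hv
      rw [Finset.mem_add] at hv
      obtain ⟨x, hx, y, hy, rfl⟩ := hv
      rw [mem_Ex_succ] at hx hy
      obtain ⟨α, hα, x', hx', rfl⟩ := hx
      obtain ⟨β, hβ, y', hy', rfl⟩ := hy
      rw [mem_image]
      refine ⟨(α + β, x' + y'), mem_product.2 ⟨add_mem_add hα hβ, add_mem_add hx' hy'⟩, ?_⟩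
      simp only
      ring
    refine (card_le_card hsub).trans (card_image_le.trans ?_)
    rw [card_product, pow_succ]
    calc (A + B).card * (Ex p A S T + Ex p B S' T).card
        ≤ (A + B).card * ((A + B).card ^ T * (S + S').card) := Nat.mul_le_mul_left _ ih
      _ = _ := by ring

/-- bounds -/
lemma Ex_le {p Q M : ℕ} (hp : 2 ≤ p) {A S : Finset ℕ} (hA : ∀ α ∈ A, α ≤ Q)
    (hS : ∀ s ∈ S, s + Q ≤ M) (T : ℕ) : ∀ x ∈ Ex p A S T, x + Q ≤ M * p ^ T := by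
  induction T with
  | zero => intro x hx; rw [pow_zero, mul_one]; exact hS x hx
  | succ T ih =>
    intro v hv
    rw [mem_Ex_succ] at hv
    obtain ⟨α, hα, x, hx, rfl⟩ := hv
    have h1 := hA α hα
    have h2 := ih x hx
    have h3 : p * (x + Q) ≤ p * (M * p ^ T) := Nat.mul_le_mul_left _ h2
    have h4 : M * p ^ (T + 1) = p * (M * p ^ T) := by rw [pow_succ]; ring
    have h5 : 2 * Q ≤ p * Q := Nat.mul_le_mul_right _ hp
    rw [h4]
    rw [mul_add] at h3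
    omega

/-- every integer of moderate size is a difference -/
lemma Ex_cov {p Q : ℕ} (hp : 2 ≤ p) {A B : Finset ℕ} (hA : ∀ α ∈ A, α ≤ Q) (hB : ∀ β ∈ B, β ≤ Q)
    (hAB : ∀ z : ℤ, ∃ α ∈ A, ∃ β ∈ B, (p : ℤ) ∣ z - ((β : ℤ) - α)) (T : ℕ) :
    ∀ z : ℤ, |z| ≤ 2 * (p : ℤ) ^ T + Q → ∃ x ∈ Ex p A {Q + 2} T,
      ∃ y ∈ Ex p B (range (2 * (Q + 2) + 1)) T, (y : ℤ) - x = z := by
  induction T with
  | zero =>
    intro z hz
    rw [pow_zero, mul_one, abs_le] at hz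
    refine ⟨Q + 2, mem_singleton_self _, (((Q : ℤ) + 2) + z).toNat, ?_, ?_⟩
    · show _ ∈ range _
      rw [mem_range]
      omega
    · push_cast
      omega
  | succ T ih =>
    intro z hz
    obtain ⟨α, hα, β, hβ, z', hz'⟩ := hAB z
    have h1 := hA α hα
    have h2 := hB β hβ
    have hp0 : (0 : ℤ) < p := by exact_mod_cast (by omega : 0 < p)
    have hp2 : (2 : ℤ) ≤ p := by exact_mod_cast hp
    have h3 : |z'| ≤ 2 * (p : ℤ) ^ T + Q := by
      have h4 : (p : ℤ) * |z'| ≤ p * (2 * (p : ℤ) ^ T + Q) := by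
        have h5 : (p : ℤ) * |z'| = |z - ((β : ℤ) - α)| := by
          rw [hz', abs_mul, abs_of_pos hp0]
        have h6 : |z - ((β : ℤ) - α)| ≤ |z| + |(β : ℤ) - α| := abs_sub _ _
        have h7 : |(β : ℤ) - α| ≤ Q := by
          rw [abs_le]
          constructor <;> omega
        have h8 : (p : ℤ) * (2 * (p : ℤ) ^ T + Q) = 2 * (p : ℤ) ^ (T + 1) + p * Q := by
          rw [pow_succ]; ring
        have h9 : 2 * (Q : ℤ) ≤ p * Q := mul_le_mul_of_nonneg_right hp2 (Int.natCast_nonneg _)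
        rw [h5, h8]
        linarith
      exact le_of_mul_le_mul_left h4 hp0
    obtain ⟨x, hx, y, hy, hxy⟩ := ih z' h3
    refine ⟨α + p * x, mem_Ex_succ.2 ⟨α, hα, x, hx, rfl⟩, β + p * y,
      mem_Ex_succ.2 ⟨β, hβ, y, hy, rfl⟩, ?_⟩
    push_cast
    have : z = ((β : ℤ) - α) + p * z' := by linarith
    rw [this, ← hxy]
    ring

/-- **The sequences.** -/
theorem exists_seq {p : ℕ} (hp : 2 ≤ p) {A B : Finset ℕ}
    (hAB : ∀ z : ℤ, ∃ α ∈ A, ∃ β ∈ B, (p : ℤ) ∣ z - ((β : ℤ) - α)) :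
    ∃ C : ℕ, 1 ≤ C ∧ ∀ T : ℕ, ∃ a : ℕ → ℕ, (∀ i, a i ≤ C * p ^ T) ∧
      ∀ n : ℕ, (VS fun i : Fin n => a i).ncard ≤ C * (A + B).card ^ T * (n / p ^ T + 1) := by
  obtain ⟨Q, hQA, hQB⟩ : ∃ Q : ℕ, (∀ α ∈ A, α ≤ Q) ∧ ∀ β ∈ B, β ≤ Q :=
    ⟨A.sup id + B.sup id, fun α hα => (le_sup (f := id) hα).trans (Nat.le_add_right _ _),
      fun β hβ => (le_sup (f := id) hβ).trans (Nat.le_add_left _ _)⟩
  refine ⟨2 * (Q + 2) + 1 + Q, by omega, fun T => ?_⟩
  have hR : 0 < p ^ T := Nat.pow_pos (by omega)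
  have hch : ∀ r : ℕ, ∃ x y : ℕ, r < p ^ T → x ∈ Ex p A {Q + 2} T ∧
      y ∈ Ex p B (range (2 * (Q + 2) + 1)) T ∧ y = x + 2 * r := by
    intro r
    by_cases hr : r < p ^ T
    · obtain ⟨x, hx, y, hy, hxy⟩ := Ex_cov hp hQA hQB hAB T (2 * (r : ℤ)) (by
        rw [abs_of_nonneg (by positivity)]
        have : (r : ℤ) ≤ (p : ℤ) ^ T := by exact_mod_cast hr.le
        have := Int.natCast_nonneg Q
        linarith)
      exact ⟨x, y, fun _ => ⟨hx, hy, by omega⟩⟩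
    · exact ⟨0, 0, fun h => absurd h hr⟩
  choose x y hxy using hch
  refine ⟨fun i => x (i % p ^ T) + i % p ^ T, fun i => ?_, fun n => ?_⟩
  · obtain ⟨h1, h2, h3⟩ := hxy (i % p ^ T) (Nat.mod_lt _ hR)
    have h4 := Ex_le hp hQB (M := 2 * (Q + 2) + 1 + Q) (S := range (2 * (Q + 2) + 1)) (by
      intro s hs; rw [mem_range] at hs; omega) T _ h2
    show x (i % p ^ T) + i % p ^ T ≤ _
    omega
  · set Sx := Ex p A {Q + 2} T with hSx
    set Sy := Ex p B (range (2 * (Q + 2) + 1)) T with hSy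
    have hsub : (VS fun i : Fin n => x ((i : ℕ) % p ^ T) + (i : ℕ) % p ^ T) ⊆
        (((Sx + Sy) ×ˢ range (n / p ^ T + 1)).image
          fun q : ℕ × ℕ => (q.1 : ℤ) + (p ^ T : ℕ) * q.2 : Finset ℤ) := by
      rintro v ⟨i, j, hij, rfl⟩
      rw [mem_coe, mem_image]
      obtain ⟨h1, -, -⟩ := hxy ((i : ℕ) % p ^ T) (Nat.mod_lt _ hR)
      obtain ⟨-, h2, h3⟩ := hxy ((j : ℕ) % p ^ T) (Nat.mod_lt _ hR)
      have hij' : (i : ℕ) / p ^ T ≤ (j : ℕ) / p ^ T := Nat.div_le_div_right (Fin.le_def.1 hij.le)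
      refine ⟨(x ((i : ℕ) % p ^ T) + y ((j : ℕ) % p ^ T), (j : ℕ) / p ^ T - (i : ℕ) / p ^ T),
        mem_product.2 ⟨add_mem_add h1 h2, ?_⟩, ?_⟩
      · rw [mem_range]
        have h4 : (j : ℕ) / p ^ T ≤ n / p ^ T := Nat.div_le_div_right j.2.le
        exact Nat.lt_succ_of_le ((Nat.sub_le _ _).trans h4)
      · simp only
        rw [h3]
        have e1 : ((i : ℕ) : ℤ) = (p ^ T : ℕ) * (((i : ℕ) / p ^ T : ℕ) : ℤ) + (((i : ℕ) % p ^ T : ℕ) : ℤ) := by
          exact_mod_cast (Nat.div_add_mod (i : ℕ) (p ^ T)).symm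
        have e2 : ((j : ℕ) : ℤ) = (p ^ T : ℕ) * (((j : ℕ) / p ^ T : ℕ) : ℤ) + (((j : ℕ) % p ^ T : ℕ) : ℤ) := by
          exact_mod_cast (Nat.div_add_mod (j : ℕ) (p ^ T)).symm
        rw [Nat.cast_sub hij', Nat.cast_add, Nat.cast_add, Nat.cast_mul]
        push_cast at e1 e2 ⊢
        linear_combination e1 - e2
    refine (Set.ncard_le_ncard hsub (finite_toSet _)).trans ?_
    rw [Set.ncard_coe_finset]
    refine card_image_le.trans ?_
    rw [card_product, card_range]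
    apply Nat.mul_le_mul_right
    have h5 := card_Ex p A B {Q + 2} (range (2 * (Q + 2) + 1)) T
    have h6 : (({Q + 2} : Finset ℕ) + range (2 * (Q + 2) + 1)).card ≤ 2 * (Q + 2) + 1 + Q := by
      refine card_add_le.trans ?_
      rw [card_singleton, card_range, one_mul]
      omega
    calc (Sx + Sy).card ≤ (A + B).card ^ T * (({Q + 2} : Finset ℕ) + range (2 * (Q + 2) + 1)).card := h5
      _ ≤ (A + B).card ^ T * (2 * (Q + 2) + 1 + Q) := Nat.mul_le_mul_left _ h6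
      _ = _ := by ring

/-- **The upper bound**, one exponent. -/
theorem not_PP {θ c : ℝ} (hθ : Real.log 2 / Real.log (1 + √2) < θ) (hc0 : 0 < c) (hc1 : c ≤ 1)
    (hc : 1 < c * (2 - θ)) : ¬ PP c := by
  rintro ⟨δ, hδ, n0, hPP⟩
  obtain ⟨p, hp, A, B, hAB, hcard⟩ := digit_pair hθ
  obtain ⟨C, hC1, hseq⟩ := exists_seq hp hAB
  have hp1 : (1 : ℝ) < p := by exact_mod_cast (by omega : 1 < p)
  have hCR : (1 : ℝ) ≤ C := by exact_mod_cast hC1
  set γ : ℝ := 2 - θ - 1 / c with hγ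
  have hγ0 : 0 < γ := by
    have h1 : 1 / c < 2 - θ := by
      rw [div_lt_iff₀ hc0]
      linarith
    linarith
  have hlim : Tendsto (fun T : ℕ => ((p : ℝ) ^ T)) atTop atTop :=
    tendsto_pow_atTop_atTop_of_one_lt hp1
  have hev1 : ∀ᶠ T : ℕ in atTop, 3 * C * (C : ℝ) ^ (1 / c) / δ < ((p : ℝ) ^ T) ^ γ :=
    ((tendsto_rpow_atTop hγ0).comp hlim).eventually_gt_atTop _
  obtain ⟨T, hT1, hT2⟩ := (hev1.and (hlim.eventually_ge_atTop (n0 : ℝ))).exists
  obtain ⟨a, ha, hS⟩ := hseq T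
  set R : ℝ := (p : ℝ) ^ T with hR
  have hR1 : 1 ≤ R := one_le_pow₀ hp1.le
  have hR0 : 0 < R := by linarith
  have hCR1 : 1 ≤ C * R := by nlinarith
  have h1c : 1 ≤ 1 / c := by rw [le_div_iff₀ hc0]; linarith
  set Z : ℝ := (C * R) ^ (1 / c) with hZ
  have hZge : C * R ≤ Z := by
    calc C * R = (C * R) ^ (1 : ℝ) := (Real.rpow_one _).symm
      _ ≤ Z := Real.rpow_le_rpow_of_exponent_le hCR1 h1c
  have hRZ : R ≤ Z := by nlinarith
  set n : ℕ := ⌈Z⌉₊ with hn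
  have hnge : Z ≤ n := Nat.le_ceil _
  have hnle : (n : ℝ) ≤ 2 * Z := by
    have := Nat.ceil_lt_add_one (show 0 ≤ Z by linarith)
    linarith
  have hn0 : n0 ≤ n := by
    have : (n0 : ℝ) ≤ n := by linarith
    exact_mod_cast this
  have hnc : C * R ≤ (n : ℝ) ^ c := by
    calc C * R = ((C * R) ^ (1 / c)) ^ c := by
          rw [← Real.rpow_mul (by linarith), one_div, inv_mul_cancel₀ hc0.ne', Real.rpow_one]
      _ ≤ (n : ℝ) ^ c := Real.rpow_le_rpow (by positivity) hnge hc0.le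
  have h1 := hPP n hn0 (fun i : Fin n => a i) (fun i => by
    refine le_trans ?_ hnc
    have := ha i
    have h2 : ((a i : ℕ) : ℝ) ≤ ((C * p ^ T : ℕ) : ℝ) := by exact_mod_cast this
    rw [hR]
    push_cast at h2
    exact h2)
  have h2 : ((VS fun i : Fin n => a i).ncard : ℝ) ≤ C * ((A + B).card : ℝ) ^ T * (n / R + 1) := by
    have h3 : ((VS fun i : Fin n => a i).ncard : ℝ) ≤
        ((C * (A + B).card ^ T * (n / p ^ T + 1) : ℕ) : ℝ) := by exact_mod_cast hS n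
    refine h3.trans ?_
    push_cast
    apply mul_le_mul_of_nonneg_left _ (by positivity)
    have h4 : (((n / p ^ T : ℕ) : ℝ)) ≤ (n : ℝ) / ((p ^ T : ℕ) : ℝ) := Nat.cast_div_le
    push_cast at h4
    linarith
  have h3 : ((A + B).card : ℝ) ^ T ≤ R ^ θ := by
    calc ((A + B).card : ℝ) ^ T ≤ ((p : ℝ) ^ θ) ^ T := pow_le_pow_left₀ (Nat.cast_nonneg _) hcard _
      _ = R ^ θ := by
        rw [hR, ← Real.rpow_natCast, ← Real.rpow_natCast, ← Real.rpow_mul (by linarith),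
          ← Real.rpow_mul (by linarith), mul_comm]
  have h4 : (n : ℝ) / R + 1 ≤ 3 * (Z / R) := by
    have h5 : (n : ℝ) / R ≤ 2 * Z / R := div_le_div_of_nonneg_right hnle hR0.le
    have h6 : 1 ≤ Z / R := by rw [le_div_iff₀ hR0]; linarith
    have h7 : 2 * Z / R = 2 * (Z / R) := by ring
    linarith
  have h5 : δ * R ≤ C * R ^ θ * (3 * (Z / R)) := by
    have h6 : δ * R ≤ δ * (n : ℝ) ^ c := by
      apply mul_le_mul_of_nonneg_left _ hδ.le
      nlinarith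
    refine h6.trans (h1.trans (h2.trans ?_))
    have h7 : (C : ℝ) * ((A + B).card : ℝ) ^ T ≤ C * R ^ θ :=
      mul_le_mul_of_nonneg_left h3 (by linarith)
    exact mul_le_mul h7 h4 (by positivity) (by positivity)
  have h6 : C * R ^ θ * (3 * (Z / R)) = 3 * C * (C : ℝ) ^ (1 / c) * R ^ (θ + 1 / c - 1) := by
    rw [hZ, Real.mul_rpow (by linarith) hR0.le, Real.rpow_sub hR0, Real.rpow_add hR0, Real.rpow_one]
    ring
  rw [h6] at h5
  have h7 : R = R ^ γ * R ^ (θ + 1 / c - 1) := by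
    rw [← Real.rpow_add hR0, hγ]
    have : 2 - θ - 1 / c + (θ + 1 / c - 1) = 1 := by ring
    rw [this, Real.rpow_one]
  have h8 : (δ * R ^ γ) * R ^ (θ + 1 / c - 1) ≤ (3 * C * (C : ℝ) ^ (1 / c)) * R ^ (θ + 1 / c - 1) := by
    calc (δ * R ^ γ) * R ^ (θ + 1 / c - 1) = δ * (R ^ γ * R ^ (θ + 1 / c - 1)) := by ring
      _ = δ * R := by rw [← h7]
      _ ≤ _ := h5
  have h9 : δ * R ^ γ ≤ 3 * C * (C : ℝ) ^ (1 / c) :=
    le_of_mul_le_mul_right h8 (Real.rpow_pos_of_pos hR0 _)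
  rw [div_lt_iff₀ hδ] at hT1
  linarith

/-- **The upper bound.** -/
theorem up_sSup : sSup {c : ℝ | 0 ≤ c ∧ c ≤ 1 ∧ PP c} ≤
    Real.log (1 + √2) / (2 * Real.log (1 + √2) - Real.log 2) := by
  have hs0 : 0 < √2 := Real.sqrt_pos.2 (by norm_num)
  have h22 : √2 * √2 = 2 := Real.mul_self_sqrt (by norm_num)
  have hs1 : 1 < √2 := by nlinarith
  have hlx : 0 < Real.log (1 + √2) := Real.log_pos (by linarith)
  have hl2 : 0 < Real.log 2 := Real.log_pos (by norm_num)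
  have hlt : Real.log 2 < Real.log (1 + √2) := Real.log_lt_log (by norm_num) (by linarith)
  set lx := Real.log (1 + √2) with hlx'
  set l2 := Real.log 2 with hl2'
  have hb0 : 0 < lx / (2 * lx - l2) := div_pos hlx (by linarith)
  apply Real.sSup_le _ hb0.le
  rintro c ⟨hc0, hc1, hPP⟩
  by_contra hcon
  push Not at hcon
  have hc0' : 0 < c := hb0.trans hcon
  -- an exponent between
  have h1 : l2 / lx < 2 - 1 / c := by
    rw [div_lt_iff₀ (by linarith)] at hcon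
    have h2 : 2 - 1 / c = (2 * c - 1) / c := by field_simp
    rw [h2, div_lt_div_iff₀ hlx hc0']
    linarith
  obtain ⟨θ, hθ1, hθ2⟩ := exists_between h1
  refine not_PP hθ1 hc0' hc1 ?_ hPP
  have h3 : 1 / c < 2 - θ := by linarith
  rw [div_lt_iff₀ hc0'] at h3
  linarith

end Pool.Agent.H66.Sds
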