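import Mathlib
import Pool.Agent.H66.Sds.Low3
import Pool.Agent.H66.Sds.Up4

set_option autoImplicit false

/-! # Both bounds -/

namespace Pool.Agent.H66.Sds

lemma PP_mono {c c1 : ℝ} (h : c ≤ c1) (h1 : PP c1) : PP c := by
  obtain ⟨δ, hδ, n0, H⟩ := h1
  refine ⟨δ, hδ, max n0 1, fun n hn a ha => ?_⟩
  have hn1 : (1 : ℝ) ≤ n := by exact_mod_cast (le_max_right n0 1).trans hn
  have hle : (n : ℝ) ^ c ≤ (n : ℝ) ^ c1 := Real.rpow_le_rpow_of_exponent_le hn1 h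
  exact (mul_le_mul_of_nonneg_left hle hδ.le).trans
    (H n ((le_max_left _ _).trans hn) a fun i => (ha i).trans hle)

theorem low {c : ℝ} (h0 : 0 ≤ c) (h : c < 3 / 4) : PP c := by
  obtain ⟨c1, h1, h2⟩ := exists_between h
  exact PP_mono h1.le (PP_of_lt (h0.trans_lt h1) h2)

theorem up {c : ℝ} (h1 : c ≤ 1) (hc : Real.log (1 + √2) / (2 * Real.log (1 + √2) - Real.log 2) < c) :
    ¬ PP c := by
  intro hPP
  have hs0 : 0 < √2 := Real.sqrt_pos.2 (by norm_num)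
  have h22 : √2 * √2 = 2 := Real.mul_self_sqrt (by norm_num)
  have hs1 : 1 < √2 := by nlinarith
  have hlx : 0 < Real.log (1 + √2) := Real.log_pos (by linarith)
  have hlt : Real.log 2 < Real.log (1 + √2) := Real.log_lt_log (by norm_num) (by linarith)
  have hc0 : 0 < c := (div_pos hlx (by linarith)).trans hc
  have h2 : c ≤ sSup {c : ℝ | 0 ≤ c ∧ c ≤ 1 ∧ PP c} :=
    le_csSup ⟨1, fun x hx => hx.2.1⟩ ⟨hc0.le, h1, hPP⟩
  exact absurd (h2.trans up_sSup) (not_le.2 hc)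

end Pool.Agent.H66.Sds
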